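import Pool.Agent.H63.WT.TD

/-!
# The relaxed local lemma: the total class, nonarchimedean fields
-/

set_option autoImplicit false

open Polynomial Matrix Pool.Agent.H63.WT

namespace Pool.Agent.H51.WT

lemma sy_symm {F : Type} [Field F] (A a b : F[X]) : sy A a b = sy A b a := by
  unfold sy
  rw [mul_comm a b]
  abel

lemma sy_one {F : Type} [Field F] (A a : F[X]) : sy A a 1 = 0 := by
  unfold sy
  rw [mul_one]
  abel

lemma sum_fac {F : Type} [Field F] [CharZero F] (hSYB : T_SYB) (hLA : LA F) (P D : F[X])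
    (q : WG F) (hP : P.Monic) (hsep : P.Separable) (hc : IsCoprime P D) :
    ∀ (n : ℕ) (G : F[X]), G.natDegree ≤ n → G.Monic → IsCoprime G P →
      (∀ T : F[X], T.Monic → Irreducible T → T ∣ G → T.natDegree • q + sy P D T = 0) →
      G.natDegree • q + sy P D G = 0 := by
  intro n
  induction n with
  | zero =>
    intro G hn hG _ _
    have h1 : G = 1 := Polynomial.eq_one_of_monic_natDegree_zero hG (Nat.le_zero.mp hn)
    rw [h1, sy_one]
    simp
  | succ n ih =>
    intro G hn hG hGP hT
    by_cases hu : IsUnit G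
    · have h1 : G = 1 := hG.eq_one_of_isUnit hu
      rw [h1, sy_one]
      simp
    · obtain ⟨T, hTm, hTi, H, rfl⟩ := Polynomial.exists_monic_irreducible_factor G hu
      have hH : H.Monic := hTm.of_mul_monic_left hG
      have hd : (T * H).natDegree = T.natDegree + H.natDegree := hTm.natDegree_mul hH
      have hTpos : 0 < T.natDegree := hTi.natDegree_pos
      have e1 := hT T hTm hTi (dvd_mul_right T H)
      have e2 := ih H (by omega) hH (hGP.of_mul_left_right)
        (fun U hU hUi hUd => hT U hU hUi (hUd.mul_left T))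
      have e3 := hSYB F hLA P D T H hP hsep hc hGP.of_mul_left_left.symm
        hGP.of_mul_left_right.symm
      rw [hd, e3, add_smul]
      calc T.natDegree • q + H.natDegree • q + (sy P D T + sy P D H)
          = (T.natDegree • q + sy P D T) + (H.natDegree • q + sy P D H) := by abel
        _ = 0 := by rw [e1, e2, add_zero]

theorem pf_TOTF (hSPT : T_SPT) (hLAL : T_LAL) (hHPR : T_HPR) (hPHI : T_PHI) (hNRS : T_NRS)
    (hIV : T_IV) (hEXF : T_EXF) (hSYB : T_SYB) : T_TOTF := by
  intro F _ _ _ _ e he P D G' hP hsep h7 hc hsq hG hGs hodd hGP hT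
  have hLA : LA F := hLAL F
  have h2 : (2 : F) ≠ 0 := hLA.1
  obtain ⟨hNI, hnsq⟩ := hLA.2 F inferInstance
  obtain ⟨hphi1, hphi2, hphi3⟩ := hPHI F h2 P 1 D hP isCoprime_one_right hc
  have hI2 : I2 (cls (Phi P 1 D)) := (hphi3 hsq).2
  have hq : cls (Phi P 1 D) = S P D - S P 1 := by rw [hphi2, mul_one]
  have hnn : IsSquare (nn P D) := (hNRS F P D hP hc).mp hsq
  have hfac := sum_fac hSYB hLA P D (S P D - S P 1) hP hsep hc G'.natDegree G' le_rfl hG hGP
    (fun T hTm hTi hTd => (hSPT F hLA P D T hP hsep h7 hc hnn hTm hTi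
      (hGP.of_isCoprime_of_dvd_left hTd)).mp (hT T hTm hTi hTd))
  rw [← hq] at hfac
  have h2q := (hIV F h2 hNI hnsq).1 _ hI2
  have hsy : sy P G' D = cls (Phi P 1 D) := by
    obtain ⟨m, hm⟩ := hodd
    have h1 : G'.natDegree • cls (Phi P 1 D) = cls (Phi P 1 D) := by
      rw [hm, add_smul, mul_comm, mul_smul, two_smul, h2q, smul_zero, one_smul, zero_add]
    rw [h1] at hfac
    rw [sy_symm P G' D]
    have h3 : sy P D G' = -cls (Phi P 1 D) := eq_neg_of_add_eq_zero_right hfac
    rw [h3]
    exact neg_eq_of_add_eq_zero_left h2q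
  obtain ⟨_, hpm, hiff⟩ := hHPR F hLA P G' D hP hsep hGP.symm hc
  have hee := (hEXF F).2 e he _ hI2
  rcases hpm with h | h
  · have h0 : cls (Phi P 1 D) = 0 := by rw [← hsy]; exact hiff.mp h
    rw [h, hee.mpr h0]
  · have h0 : cls (Phi P 1 D) ≠ 0 := by
      intro h0
      have h1 := hiff.mpr (by rw [hsy]; exact h0)
      rw [h] at h1
      norm_num at h1
    rcases he.sgn (cls (Phi P 1 D)) with h3 | h3
    · exact absurd (hee.mp h3) h0
    · rw [h, h3]

end Pool.Agent.H51.WT
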